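import Pool.Agent.EGF.StmtsV

/-!
# Squad EGF, row CLA (the nested records and the bad scales)
-/

set_option autoImplicit false

open Finset

namespace Pool.Agent.EGF.H60

theorem cla (h1 : NevStmt) (h2 : NrsStmt) : ClaStmt := by
  intro V _ k c W s R L q B S0 hsym hflat hL hLs hs hk hq hB hS0 hW
  have hlog : 0 ≤ Real.log ((k : ℝ) + 1) := Real.log_nonneg (by
    have : (0 : ℝ) ≤ k := Nat.cast_nonneg k
    linarith)
  have hσ0 : 0 ≤ 2 * (s : ℝ) ^ 2 * Real.log (k + 1) := by positivity
  have hS0p : 0 < S0 := by linarith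
  have hBp : 0 < B := by linarith
  have hSp : ∀ j : ℕ, 0 < (B + 2) ^ j * S0 := fun j => by positivity
  obtain ⟨U, hUR, hne, hrec, hsum⟩ := h2 V k c W q (3 + 2 * (s : ℝ) ^ 2 * Real.log (k + 1))
    (fun j => 16 * ((B + 2) ^ j * S0)) (fun j => B * ((B + 2) ^ j * S0)) R
    (fun j => by have := hSp j; positivity) (fun j => by have := hSp j; positivity)
    (fun j => by
      have h3 := hSp j
      have h4 : B * ((B + 2) ^ (j + 1) * S0) = (B + 2) * (B * ((B + 2) ^ j * S0)) := by ring
      show 2 * (B * ((B + 2) ^ j * S0)) ≤ B * ((B + 2) ^ (j + 1) * S0)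
      rw [h4]
      have h5 : 0 < B * ((B + 2) ^ j * S0) := by positivity
      exact mul_le_mul_of_nonneg_right (by linarith) h5.le)
    (by
      show 2 * (3 + 2 * (s : ℝ) ^ 2 * Real.log (k + 1)) ≤ B * ((B + 2) ^ 0 * S0)
      rw [pow_zero, one_mul]
      have h3 : 16 * S0 ≤ B * S0 := mul_le_mul_of_nonneg_right hB hS0p.le
      linarith)
    hW hk
    (by
      intro A hA h3 T hT h4
      rw [hq]
      exact h1 V k c W s L hsym hflat hL hLs hs A hA h3 T hT h4)
  have hmono : ∀ j < R, Real.log ((U j).card : ℝ) ≤ Real.log ((U (j + 1)).card : ℝ) := by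
    intro j hj
    have h3 : 0 < (U j).card := Finset.card_pos.2 (hne j hj.le).1
    exact Real.log_le_log (by exact_mod_cast h3)
      (by exact_mod_cast Finset.card_le_card (hrec j hj).1)
  have hsub0 : ∀ j ≤ R, U 0 ⊆ U j := by
    intro j
    induction j with
    | zero => intro _; exact Finset.Subset.refl _
    | succ j ih => intro hj; exact (ih (by omega)).trans (hrec j (by omega)).1
  have hsubR : ∀ i j, i + j = R → U i ⊆ W := by
    intro i j
    induction j generalizing i with
    | zero => intro h; rw [← hUR, ← h]; exact Finset.Subset.refl _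
    | succ j ih => intro h; exact (hrec i (by omega)).1.trans (ih (i + 1) (by omega))
  have hloss : ∀ j ≤ R, Real.log ((U j).card : ℝ) - Real.log ((U 0).card : ℝ) ≤
      (B + 2) ^ j * S0 / 2 := by
    intro j
    induction j with
    | zero =>
      intro _
      rw [sub_self, pow_zero, one_mul]
      positivity
    | succ j ih =>
      intro hj
      have h3 := ih (by omega)
      have h4 := (hrec j (by omega)).2.1
      have h4' : Real.log ((U (j + 1)).card : ℝ) - Real.log ((U j).card : ℝ) ≤
          B * ((B + 2) ^ j * S0) / 2 := h4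
      have h5 : (B + 2) ^ (j + 1) * S0 / 2 =
          B * ((B + 2) ^ j * S0) / 2 + (B + 2) ^ j * S0 := by ring
      have h6 := hSp j
      rw [h5]
      linarith
  classical
  set Bad : Finset ℕ := (range R).filter fun j =>
    B * ((B + 2) ^ j * S0) / 4 < Real.log ((U (j + 1)).card : ℝ) - Real.log ((U j).card : ℝ)
    with hBad
  refine ⟨U, Bad, Finset.filter_subset _ _, ?_, fun j hj => hsubR j (R - j) (by omega),
    (hne 0 (Nat.zero_le _)).2, ?_⟩
  · have h3 : ∑ j ∈ Bad, B / 64 ≤
        ∑ j ∈ Bad, (Real.log ((U (j + 1)).card : ℝ) - Real.log ((U j).card : ℝ)) /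
          (16 * ((B + 2) ^ j * S0)) := by
      refine Finset.sum_le_sum fun j hj => ?_
      have h4 := (Finset.mem_filter.1 hj).2
      have h5 := hSp j
      rw [le_div_iff₀ (by positivity)]
      have h6 : B / 64 * (16 * ((B + 2) ^ j * S0)) = B * ((B + 2) ^ j * S0) / 4 := by ring
      rw [h6]
      exact h4.le
    have h4 : ∑ j ∈ Bad, (Real.log ((U (j + 1)).card : ℝ) - Real.log ((U j).card : ℝ)) /
          (16 * ((B + 2) ^ j * S0)) ≤
        ∑ j ∈ range R, (Real.log ((U (j + 1)).card : ℝ) - Real.log ((U j).card : ℝ)) /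
          (16 * ((B + 2) ^ j * S0)) := by
      refine Finset.sum_le_sum_of_subset_of_nonneg (Finset.filter_subset _ _) fun j hj _ => ?_
      have h5 := hSp j
      exact div_nonneg (sub_nonneg.2 (hmono j (Finset.mem_range.1 hj))) (by positivity)
    rw [Finset.sum_const, nsmul_eq_mul] at h3
    have h5 := (h3.trans h4).trans hsum
    have h6 : (Bad.card : ℝ) * (B / 64) = (Bad.card : ℝ) * B / 64 := by ring
    rw [h6] at h5
    linarith
  · intro j hj
    obtain ⟨h3, h4⟩ := Finset.mem_sdiff.1 hj
    have h5 := Finset.mem_range.1 h3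
    have h6 : ¬ B * ((B + 2) ^ j * S0) / 4 <
        Real.log ((U (j + 1)).card : ℝ) - Real.log ((U j).card : ℝ) := fun h =>
      h4 (Finset.mem_filter.2 ⟨h3, h⟩)
    exact ⟨hsub0 j h5.le, (hrec j h5).1, hloss j h5.le, not_lt.1 h6, (hrec j h5).2.2⟩

end Pool.Agent.EGF.H60
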