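import Pool.Agent.EGF.StmtsS

set_option autoImplicit false

/-!
Row GIN of squad EGF (MP_1090a0_co): greedy independent set.
-/

namespace Pool.Agent.EGF.H60

open Finset Pool.Agent.EGF

theorem gin : GinStmt := by
  classical
  intro V _ U G d hsym hdeg
  induction hn : U.card using Nat.strong_induction_on generalizing U with
  | _ n ih =>
  rcases U.eq_empty_or_nonempty with h0 | ⟨x, hx⟩
  · subst h0
    refine ⟨∅, Subset.rfl, ?_, ?_⟩
    · intro x hx
      simp at hx
    · have h1 : n = 0 := by
        rw [← hn]
        simp
      rw [h1]
      exact Nat.zero_le _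
  · set N : Finset V := U.filter (fun y => y ≠ x ∧ G x y) with hN
    have hNd : N.card ≤ d := hdeg x hx N (filter_subset _ _) (fun y hy => (mem_filter.1 hy).2)
    have hxN : x ∉ N := fun h => (mem_filter.1 h).2.1 rfl
    set U' : Finset V := U \ insert x N with hU'
    have hsub : U' ⊆ U := sdiff_subset
    have hins : insert x N ⊆ U := by
      intro y hy
      rcases mem_insert.1 hy with h | h
      · rw [h]; exact hx
      · exact (mem_filter.1 h).1
    have hcard : U'.card + (N.card + 1) = n := by
      have h1 := card_sdiff_add_card_eq_card hins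
      rw [card_insert_of_notMem hxN] at h1
      rw [hU', h1, hn]
    have hlt : U'.card < n := by omega
    obtain ⟨I, hIU, hI, hIc⟩ := ih U'.card hlt U'
      (fun y hy S hS hSy => hdeg y (hsub hy) S (hS.trans hsub) hSy) rfl
    have hxI : x ∉ I := fun h => by
      have h1 := hIU h
      rw [hU', mem_sdiff] at h1
      exact h1.2 (mem_insert_self _ _)
    have hno : ∀ y ∈ I, ¬ G x y := by
      intro y hy hG
      have h1 := hIU hy
      rw [hU', mem_sdiff] at h1
      have hyx : y ≠ x := fun h => hxI (h ▸ hy)
      exact h1.2 (mem_insert_of_mem (mem_filter.2 ⟨h1.1, hyx, hG⟩))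
    refine ⟨insert x I, ?_, ?_, ?_⟩
    · intro y hy
      rcases mem_insert.1 hy with h | h
      · rw [h]; exact hx
      · exact hsub (hIU h)
    · intro a ha b hb hab
      rcases mem_insert.1 ha with h | h
      · rcases mem_insert.1 hb with h' | h'
        · exact absurd (h.trans h'.symm) hab
        · rw [h]
          exact hno b h'
      · rcases mem_insert.1 hb with h' | h'
        · rw [h']
          exact fun hG => hno a h (hsym _ _ hG)
        · exact hI a h b h' hab
    · rw [card_insert_of_notMem hxI]
      have h1 : (d + 1) * (I.card + 1) = (d + 1) * I.card + (d + 1) := by ring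
      rw [h1]
      omega

end Pool.Agent.EGF.H60
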