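import Pool.Agent.EGF.Stmts

/-!
# Squad EGF, row INI (the first step)
-/

set_option autoImplicit false

open Finset

namespace Pool.Agent.EGF.H60

open Pool.Agent.EGF

/-- some colour has at least `(|U| - 1) / k` neighbours of `x` -/
theorem exists_col {V : Type} [DecidableEq V] {k : ℕ} (c : V → V → Fin k) (U : Finset V) (x : V)
    (hx : x ∈ U) : U.card ≤ ∑ a : Fin k, (nb c U a x).card + 1 := by
  have h1 : U.erase x = univ.biUnion fun a : Fin k => nb c U a x := by
    ext y
    simp only [mem_erase, mem_biUnion, mem_univ, true_and, nb, mem_filter]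
    constructor
    · rintro ⟨h1, h2⟩
      exact ⟨c x y, h2, h1, rfl⟩
    · rintro ⟨a, h2, h1, -⟩
      exact ⟨h1, h2⟩
  have h2 : (U.erase x).card ≤ ∑ a : Fin k, (nb c U a x).card := by
    rw [h1]
    exact card_biUnion_le
  have h3 := card_erase_add_one hx
  omega

theorem ini (hREC : RecStmt) (hFLT : FltStmt) : IniStmt := by
  intro V _ k c W β γ ε s' hN4 hβ hγ hγ4 hε hε4 hs' hW hpal hsize
  obtain ⟨w0, hw0⟩ := hW
  have hk : 0 < k := Fin.pos (c w0 w0)
  have hk1 : (1 : ℝ) ≤ k := by exact_mod_cast hk
  have hlogk : 0 ≤ Real.log k := Real.log_nonneg hk1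
  have hlog2k : Real.log (2 * k) = Real.log 2 + Real.log k :=
    Real.log_mul (by norm_num) (by positivity)
  have hlog2 : 0 < Real.log 2 := Real.log_pos (by norm_num)
  have hlog2k0 : 0 < Real.log (2 * k) := by linarith
  set θ : ℝ := (1 - γ) * β with hθ
  have hθ0 : 0 < θ := mul_pos (by linarith) hβ
  have hLW : 0 ≤ Real.log W.card := by
    have h1 : 0 < ε * γ := mul_pos hε hγ
    by_contra h
    push Not at h
    have : ε * γ * Real.log W.card < 0 := mul_neg_of_pos_of_neg h1 h
    linarith
  obtain ⟨U, hUW, hRec, hUlog⟩ := hREC V k c W θ ⟨w0, hw0⟩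
  have hpalW : (0 : ℝ) ≤ (pal c W).card := by positivity
  have hpalU : (0 : ℝ) ≤ (pal c U).card := by positivity
  have h1 : γ * Real.log W.card ≤ Real.log W.card - θ * (pal c W).card := by
    have : θ * (pal c W).card ≤ (1 - γ) * Real.log W.card := by
      rw [hθ, mul_assoc]
      exact mul_le_mul_of_nonneg_left hpal (by linarith)
    linarith
  have hUγ : γ * Real.log W.card ≤ Real.log U.card := by
    have : 0 ≤ θ * (pal c U).card := by positivity
    linarith
  have hUθ : θ * (pal c U).card ≤ Real.log U.card := by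
    have : 0 ≤ γ * Real.log W.card := by positivity
    linarith
  have hεU : 3 * Real.log (2 * k) + 8 ≤ ε * Real.log U.card := by
    refine hsize.trans ?_
    rw [mul_assoc]
    exact mul_le_mul_of_nonneg_left hUγ hε.le
  have hLU8 : 8 ≤ Real.log U.card := by
    have h2 : ε * Real.log U.card ≤ 1 * Real.log U.card := by
      have : 0 ≤ Real.log U.card := by
        have : 0 ≤ γ * Real.log W.card := by positivity
        linarith
      exact mul_le_mul_of_nonneg_right (by linarith) this
    linarith
  have hUne : U.Nonempty := hRec.1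
  have hUpos : (0 : ℝ) < U.card := by exact_mod_cast hUne.card_pos
  have hU2 : (2 : ℝ) ≤ U.card := by
    have h3 := Real.log_le_sub_one_of_pos hUpos
    linarith
  -- a colour for every vertex
  have hcol : ∀ x ∈ U, ∃ a : Fin k, (U.card : ℝ) ≤ 2 * k * (nb c U a x).card := by
    intro x hx
    by_contra hcon
    push Not at hcon
    have h3 : ((U.card : ℕ) : ℝ) ≤ ∑ a : Fin k, ((nb c U a x).card : ℝ) + 1 := by
      exact_mod_cast exists_col c U x hx
    have : Nonempty (Fin k) := ⟨c w0 w0⟩
    have h4 : ∑ a : Fin k, (2 * k * ((nb c U a x).card : ℝ)) < ∑ _a : Fin k, (U.card : ℝ) :=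
      Finset.sum_lt_sum_of_nonempty univ_nonempty fun a _ => hcon a
    rw [← Finset.mul_sum, Finset.sum_const, card_univ, Fintype.card_fin, nsmul_eq_mul] at h4
    have hk0 : (0 : ℝ) < k := by linarith
    have h5 : 2 * ∑ a : Fin k, ((nb c U a x).card : ℝ) < U.card := by
      have h6 : (k : ℝ) * (2 * ∑ a : Fin k, ((nb c U a x).card : ℝ)) < k * U.card := by
        linarith
      exact lt_of_mul_lt_mul_left h6 hk0.le
    linarith
  -- one colour for many vertices
  obtain ⟨a, ha⟩ : ∃ a : Fin k, (U.card : ℝ) ≤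
      k * (U.filter fun x => (U.card : ℝ) ≤ 2 * k * (nb c U a x).card).card := by
    by_contra hcon
    push Not at hcon
    have : Nonempty (Fin k) := ⟨c w0 w0⟩
    have h3 : U = univ.biUnion fun a : Fin k =>
        U.filter fun x => (U.card : ℝ) ≤ 2 * k * (nb c U a x).card := by
      ext x
      simp only [mem_biUnion, mem_univ, true_and, mem_filter]
      constructor
      · intro hx
        obtain ⟨a, ha⟩ := hcol x hx
        exact ⟨a, hx, ha⟩
      · rintro ⟨a, hx, -⟩
        exact hx
    have h4 : U.card ≤ ∑ a : Fin k,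
        (U.filter fun x => (U.card : ℝ) ≤ 2 * k * (nb c U a x).card).card := by
      conv_lhs => rw [h3]
      exact card_biUnion_le
    have h5 : ((U.card : ℕ) : ℝ) ≤ ∑ a : Fin k,
        ((U.filter fun x => (U.card : ℝ) ≤ 2 * k * (nb c U a x).card).card : ℝ) := by
      exact_mod_cast h4
    have h6 : ∑ a : Fin k, ((k : ℝ) *
        ((U.filter fun x => (U.card : ℝ) ≤ 2 * k * (nb c U a x).card).card : ℝ)) <
        ∑ _a : Fin k, (U.card : ℝ) :=
      Finset.sum_lt_sum_of_nonempty univ_nonempty fun a _ => hcon a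
    rw [← Finset.mul_sum, Finset.sum_const, card_univ, Fintype.card_fin, nsmul_eq_mul] at h6
    have hk0 : (0 : ℝ) < k := by linarith
    have h7 := lt_of_mul_lt_mul_left h6 hk0.le
    linarith
  set X := U.filter fun x => (U.card : ℝ) ≤ 2 * k * (nb c U a x).card with hX
  have hk0 : (0 : ℝ) < k := by linarith
  have hXpos : (0 : ℝ) < X.card := by
    by_contra h
    push Not at h
    have : (k : ℝ) * X.card ≤ 0 := mul_nonpos_of_nonneg_of_nonpos hk0.le h
    linarith
  have hXne : X.Nonempty := by
    rw [← card_pos]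
    exact_mod_cast hXpos
  have hXlog : Real.log U.card - Real.log k ≤ Real.log X.card := by
    have h3 : Real.log U.card ≤ Real.log (k * X.card) := Real.log_le_log hUpos ha
    rw [Real.log_mul hk0.ne' hXpos.ne'] at h3
    linarith
  have ht0 : (0 : ℝ) < 1 / (2 * k) := by positivity
  have ht1 : 1 / (2 * (k : ℝ)) ≤ 1 / 2 := by
    apply one_div_le_one_div_of_le (by norm_num)
    linarith
  obtain ⟨X', hX'X, hX'ne, hFlat, hX'log⟩ := hFLT V k c U X a θ (1 / (2 * k)) ε s'
    (fun x hx x' hx' y hy y' hy' => hN4 x (hUW hx) x' (hUW hx') y (hUW hy) y' (hUW hy')) hRec hθ0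
    (filter_subset _ _) hXne ht0 ht1 hε (by linarith) hs' (by
      intro x hx
      have h3 := (mem_filter.mp hx).2
      rw [one_div, inv_mul_le_iff₀ (by positivity)]
      exact h3)
  have h1t : 1 / (1 / (2 * (k : ℝ))) = 2 * k := by rw [one_div_one_div]
  rw [h1t] at hFlat hX'log
  have hX'U : X' ⊆ U := hX'X.trans (filter_subset _ _)
  have hmain : (1 - 2 * ε) * Real.log U.card ≤ Real.log X'.card := by
    have h3 : (1 - ε) * (Real.log U.card - Real.log k) ≤ (1 - ε) * Real.log X.card :=
      mul_le_mul_of_nonneg_left hXlog (by linarith)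
    have h4 : ε * Real.log k ≤ 1 * Real.log k := mul_le_mul_of_nonneg_right (by linarith) hlogk
    have h5 : 0 ≤ ε * Real.log k := mul_nonneg hε.le hlogk
    nlinarith
  have hpalX' : ((pal c X').card : ℝ) ≤ (pal c U).card := by
    have h3 : pal c X' ⊆ pal c U := by
      unfold pal
      apply image_subset_image
      apply filter_subset_filter
      exact product_subset_product hX'U hX'U
    exact_mod_cast card_le_card h3
  refine ⟨X', hX'U.trans hUW, hX'ne, hFlat, ?_, ?_⟩
  · refine le_trans ?_ hmain
    have h3 : θ * (pal c X').card ≤ Real.log U.card :=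
      (mul_le_mul_of_nonneg_left hpalX' hθ0.le).trans hUθ
    have h4 : (1 - 2 * ε) * (θ * (pal c X').card) ≤ (1 - 2 * ε) * Real.log U.card :=
      mul_le_mul_of_nonneg_left h3 (by linarith)
    calc (1 - 2 * ε) * (1 - γ) * β * (pal c X').card = (1 - 2 * ε) * (θ * (pal c X').card) := by
          rw [hθ]
          ring
      _ ≤ _ := h4
  · refine le_trans ?_ hmain
    have h3 : 1 / 2 * (γ * Real.log W.card) ≤ (1 - 2 * ε) * (γ * Real.log W.card) :=
      mul_le_mul_of_nonneg_right (by linarith) (by positivity)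
    have h4 : (1 - 2 * ε) * (γ * Real.log W.card) ≤ (1 - 2 * ε) * Real.log U.card :=
      mul_le_mul_of_nonneg_left hUγ (by linarith)
    linarith

end Pool.Agent.EGF.H60
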